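import Pool.Agent.H60.LQ.Cfg
import Pool.Agent.H99.KTH.CGP

/-!
# LQ, row CGP2: the coefficients are neither large nor small (strong form)
-/

set_option autoImplicit false

namespace Pool.LQ

open Finset Real
open Pool.Agent.H49.Ent Pool.Agent.H32.Dense Pool.KTH
open Pool.Agent.H24.KTH (dsv lvv lev cap Yf kp)

namespace H71C

theorem one_le {d J : ℕ} (F : Cf d J) : 1 ≤ en F + 1 + Real.log (J + 2) := by
  have h0 : 0 ≤ Real.log ((J : ℝ) + 2) := Real.log_nonneg (by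
    have : (0 : ℝ) ≤ J := Nat.cast_nonneg J
    linarith)
  have n0 := F.eg_nonneg F.r F.t
  have n1 := F.eg_nonneg F.t F.s
  have n2 := F.eg_nonneg F.t₁ F.t
  have n3 := F.eg_nonneg F.t₁ F.s
  have n4 := F.eg_nonneg F.r F.s
  have n5 := F.eg_nonneg F.r F.t₁
  have n6 := F.eg_nonneg F.tr F.s
  have n7 := F.eg_nonneg F.ta F.s
  have n8 := F.eg_nonneg F.ta F.tr
  have n9 := F.eg_nonneg F.ta F.TO
  unfold en
  linarith

end H71C

theorem cgp2 (hK : KPS2Stmt) : CGP2Stmt := by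
  intro d
  obtain ⟨C1, hC1, h1⟩ := hK d
  refine ⟨6 + 2 * C1 + 2, by positivity, ?_⟩
  intro J F
  have a1 := h1 J F
  have a3 := H71C.one_le F
  simp only at a1
  have hM : 0 < 2 ^ J := by positivity
  -- the closeness of `r` and `t`
  have a4 : F.eg F.r F.t ≤ en F + 1 + Real.log (J + 2) := by
    have h0 : 0 ≤ Real.log ((J : ℝ) + 2) := Real.log_nonneg (by
      have : (0 : ℝ) ≤ J := Nat.cast_nonneg J
      linarith)
    have n1 := F.eg_nonneg F.t F.s
    have n2 := F.eg_nonneg F.t₁ F.t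
    have n3 := F.eg_nonneg F.t₁ F.s
    have n4 := F.eg_nonneg F.r F.s
    have n5 := F.eg_nonneg F.r F.t₁
    have n6 := F.eg_nonneg F.tr F.s
    have n7 := F.eg_nonneg F.ta F.s
    have n8 := F.eg_nonneg F.ta F.tr
    have n9 := F.eg_nonneg F.ta F.TO
    unfold en
    linarith
  set E0 : ℝ := en F + 1 + Real.log (J + 2) with hE0
  set EA := Ex F.q (fun w => Real.log (1 + |F.k₁ w|)) with hEA
  set EA' := Ex F.q (fun w => Real.log (1 + |F.k₁ w|⁻¹)) with hEA'
  set EB := Ex F.q (fun w => Real.log (1 + |F.k₂ w|)) with hEB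
  set EB' := Ex F.q (fun w => Real.log (1 + |F.k₂ w|⁻¹)) with hEB'
  have p1 : 0 ≤ EA := Ex_nonneg F.hq (fun w _ => Real.log_nonneg (by
    have := abs_nonneg (F.k₁ w); linarith))
  have p2 : 0 ≤ EA' := Ex_nonneg F.hq (fun w _ => Real.log_nonneg (by
    have := inv_nonneg.mpr (abs_nonneg (F.k₁ w)); linarith))
  have p3 : 0 ≤ EB := Ex_nonneg F.hq (fun w _ => Real.log_nonneg (by
    have := abs_nonneg (F.k₂ w); linarith))
  have p4 : 0 ≤ EB' := Ex_nonneg F.hq (fun w _ => Real.log_nonneg (by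
    have := inv_nonneg.mpr (abs_nonneg (F.k₂ w)); linarith))
  -- pointwise bounds
  have b1 : ∀ w, 0 < F.q w → Real.log (1 + |(F.c w : ℝ)| / 2 ^ J) ≤
      1 + Real.log (1 + |F.k₁ w|) := by
    intro w hw
    have h := log_ct_le (M := 2 ^ J) hM (t := F.t w) (s := F.s w) (τ := F.t₁ w) (r := F.r w)
      (F.ht w hw) (F.hr w hw)
    push_cast at h
    exact h
  have b2 : ∀ w, 0 < F.q w → Real.log (1 + 2 ^ J / max 1 |(F.c w : ℝ)|) ≤
      1 + gp J (F.r w) (F.t w) + Real.log (1 + |F.k₁ w|⁻¹) := by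
    intro w hw
    have h := log_ct (M := 2 ^ J) hM (t := F.t w) (s := F.s w) (τ := F.t₁ w) (r := F.r w)
      (F.ht w hw) (F.hr w hw)
    push_cast at h
    rw [max_comm]
    have h' := ell_le_gp J (F.r w) (F.t w)
    refine h.trans ?_
    unfold Cf.k₁
    linarith
  have b3 : ∀ w, 0 < F.q w → Real.log (1 + |(F.c₂ w : ℝ)| / 2 ^ J) ≤
      1 + Real.log (1 + |F.k₂ w|) + (1 + Real.log (1 + |F.k₁ w|)) := by
    intro w hw
    have h := log_floor_mul_le (M := 2 ^ J) hM (F.k₂ w) (F.c w)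
    push_cast at h
    have h' := b1 w hw
    exact h.trans (by linarith)
  have b4 : ∀ w, 0 < F.q w → Real.log (1 + 2 ^ J / max 1 |(F.c₂ w : ℝ)|) ≤
      1 + (1 + gp J (F.r w) (F.t w) + Real.log (1 + |F.k₁ w|⁻¹)) +
        Real.log (1 + |F.k₂ w|⁻¹) := by
    intro w hw
    have h := log_floor_mul (M := 2 ^ J) (kap_pos (F.s w) (F.tr w) (F.ta w)) (F.c w)
    push_cast at h
    rw [max_comm |(F.c w : ℝ)| 1] at h
    have h' := b2 w hw
    rw [max_comm]
    refine (le_trans (le_of_eq rfl) h).trans ?_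
    unfold Cf.k₂
    linarith
  -- expectations
  have e1 : F.big F.c ≤ 1 + EA := by
    refine (Ex_mono F.hq b1).trans (le_of_eq ?_)
    rw [Ex_add, Ex_const F.h1]
  have e2 : F.sml F.c ≤ 1 + F.eg F.r F.t + EA' := by
    refine (Ex_mono F.hq b2).trans (le_of_eq ?_)
    rw [Ex_add, Ex_add, Ex_const F.h1]
    rfl
  have e3 : F.big F.c₂ ≤ 1 + EB + (1 + EA) := by
    refine (Ex_mono F.hq b3).trans (le_of_eq ?_)
    rw [Ex_add, Ex_add, Ex_add, Ex_const F.h1]
  have e4 : F.sml F.c₂ ≤ 1 + (1 + F.eg F.r F.t + EA') + EB' := by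
    refine (Ex_mono F.hq b4).trans (le_of_eq ?_)
    rw [Ex_add, Ex_add, Ex_add, Ex_add, Ex_const F.h1]
    rfl
  change F.big F.c + F.sml F.c + F.big F.c₂ + F.sml F.c₂ ≤ (6 + 2 * C1 + 2) * E0
  nlinarith

end Pool.LQ
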