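import Pool.Agent.H71.KTH.PAR
import Pool.Agent.H71.LQ.CGP2

/-!
# LQ, row PAR2: upper bound for `O`, `Y` in the parallelogram of two lines (strong form)
-/

set_option autoImplicit false

namespace Pool.LQ

open Finset Real
open Pool.Agent.H49.Ent Pool.Agent.H32.Dense Pool.KTH
open Pool.Agent.H24.KTH (dsv lvv lev cap Yf kp)

open Pool.KTH.H71P

theorem par2 (h1 : Pool.KTH.CENStmt) (h2 : UPT2Stmt) (h3 : CGP2Stmt) : PAR2Stmt := by
  intro d hd
  obtain ⟨C₁, hC₁, hC⟩ := h1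
  obtain ⟨-, -, ⟨C₂, hC₂, hTO⟩, ⟨C₃, hC₃, hTY⟩⟩ := h2 d
  obtain ⟨C₄, hC₄, hG⟩ := h3 d
  have hd0 : (0 : ℝ) ≤ d := Nat.cast_nonneg d
  have hsm : ∀ (J : ℕ) (F : Cf d J) (x : F.Ω → ℤ), 0 ≤ F.sml x ∧ 0 ≤ F.big x := by
    intro J F x
    refine ⟨Ex_nonneg F.hq fun w _ => Real.log_nonneg ?_,
      Ex_nonneg F.hq fun w _ => Real.log_nonneg ?_⟩
    · have : (0 : ℝ) ≤ 2 ^ J / max 1 |(x w : ℝ)| := by positivity
      linarith
    · have : (0 : ℝ) ≤ |(x w : ℝ)| / 2 ^ J := by positivity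
      linarith
  constructor
  · refine ⟨C₂ + 2 * C₄ + (C₁ + 2 + 2 * d), by positivity, fun J F => ?_⟩
    have k1 := gen hC hd F.hq F.h1 F.Z F.v01 F.v₀ F.v₁ F.u₀ F.s F.c
      (fun w w' _ _ e => (Prod.ext_iff.mp e).1) (fun w w' _ _ e => (Prod.ext_iff.mp e).2) F.hu₀
      (J := J)
    have k2 := hTO J F
    have k3 := hG J F
    have k4 := H71C.one_le F
    have s1 := hsm J F F.c
    have s2 := hsm J F F.c₂
    set E0 : ℝ := en F + 1 + Real.log (J + 2) with hE0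
    have k5 : F.big F.c ≤ C₄ * E0 := by
      simp only at k3
      linarith [s1.1, s2.1, s2.2]
    have k6 : (C₁ + 2 + 2 * d) ≤ (C₁ + 2 + 2 * d) * E0 := le_mul_of_one_le_right (by positivity) k4
    have k7 : Ex F.q (fun w => Real.log (1 + |(F.c w : ℝ)| / 2 ^ J)) = F.big F.c := rfl
    have k8 : CH F.q (fun w => F.s w + F.c w) F.Z = CH F.q F.TO F.Z := rfl
    have k9 : CH F.q (fun w => (F.s w + F.c w,
        xf (2 ^ J) (F.u₀ w) (F.v₀ w) (F.s w) (F.c w) (F.v₁ w))) (fun w => (F.v01 w, F.Z w)) =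
        CH F.q F.O (fun w => (F.v01 w, F.Z w)) := rfl
    have k10 : Ex F.q (fun w => lvv (2 ^ J) (F.v₀ w) (F.v₁ w)) = F.y01 := rfl
    rw [k7, k8, k9, k10] at k1
    simp only at k2
    show CH F.q F.O (fun w => (F.v01 w, F.Z w)) + F.y01 - 2 * lm J ≤ _
    nlinarith [k1, k2, k5, k6]
  · refine ⟨C₃ + 2 * C₄ + (C₁ + 2 + 2 * d), by positivity, fun J F => ?_⟩
    have k1 := gen hC hd F.hq F.h1 F.Z F.v12 F.v₂ F.v₁ F.u₂ F.tr F.c₂
      (fun w w' _ _ e => (Prod.ext_iff.mp e).2) (fun w w' _ _ e => (Prod.ext_iff.mp e).1) F.hu₂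
      (J := J)
    have k2 := hTY J F
    have k3 := hG J F
    have k4 := H71C.one_le F
    have s1 := hsm J F F.c
    have s2 := hsm J F F.c₂
    set E0 : ℝ := en F + 1 + Real.log (J + 2) with hE0
    have k5 : F.big F.c₂ ≤ C₄ * E0 := by
      simp only at k3
      linarith [s1.1, s1.2, s2.1]
    have k6 : (C₁ + 2 + 2 * d) ≤ (C₁ + 2 + 2 * d) * E0 := le_mul_of_one_le_right (by positivity) k4
    have k7 : Ex F.q (fun w => Real.log (1 + |(F.c₂ w : ℝ)| / 2 ^ J)) = F.big F.c₂ := rfl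
    have k8 : CH F.q (fun w => F.tr w + F.c₂ w) F.Z = CH F.q F.TY F.Z := rfl
    have k9 : CH F.q (fun w => (F.tr w + F.c₂ w,
        xf (2 ^ J) (F.u₂ w) (F.v₂ w) (F.tr w) (F.c₂ w) (F.v₁ w))) (fun w => (F.v12 w, F.Z w)) =
        CH F.q F.Y (fun w => (F.v12 w, F.Z w)) := rfl
    have k10 : Ex F.q (fun w => lvv (2 ^ J) (F.v₂ w) (F.v₁ w)) = F.y12 := by
      unfold Cf.y12
      congr 1
      funext w
      exact lvv_symm _ _ _
    rw [k7, k8, k9, k10] at k1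
    simp only at k2
    show CH F.q F.Y (fun w => (F.v12 w, F.Z w)) + F.y12 - 2 * lm J ≤ _
    nlinarith [k1, k2, k5, k6]

end Pool.LQ
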