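import Pool.Agent.H60.LQ.Stmts
import Pool.Agent.H91.KTH.RED

/-!
# LQ, row RDS: restriction of a family to its heavy caps, with the entropy of the point
-/

set_option autoImplicit false

namespace Pool.LQ

open Finset Real
open Pool.Agent.H49.Ent Pool.Agent.H32.Dense Pool.Agent.H24.KTH

theorem rds (hHC : HCStmt) : RDSStmt := by
  intro d N hN ε hε
  obtain ⟨J₀, hJ₀⟩ := hHC d N hN ε hε
  refine ⟨Real.log (N + 1), J₀, ?_⟩
  intro J hJ Ω _ ζ p Z v u τ hF
  have hp := hF.hp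
  have h1 := hF.h1
  obtain ⟨w, hw, hA, hB⟩ := hJ₀ J hJ Ω ((ζ × ℤ) × (Fin d → ℤ)) p (av (2 ^ J) Z v u τ) v hp h1
    (fun ω hω k => by have := hF.hv ω hω k; push_cast at this; exact this)
  -- the entropy of the time
  have hT : CH p τ (bv Z v) ≤ Real.log (N + 1) +
      CH p τ (bv (fun ω => (cap J (lev J N (w ω)) (v ω), w ω, Z ω)) v) := by
    have e1 := CH_le_add hp τ w (bv Z v)
    have e2 := Pool.Agent.H91.KTH.CH_level_le hp h1 w hw (bv Z v)
    have e3 : CH p τ (fun ω => (w ω, bv Z v ω)) =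
        CH p τ (bv (fun ω => (cap J (lev J N (w ω)) (v ω), w ω, Z ω)) v) := by
      refine CH_congr hp ?_ ?_ ?_ ?_
      · intro ω ω' _ _ h
        exact (Prod.ext_iff.mp h).1
      · intro ω ω' _ _ h
        exact (Prod.ext_iff.mp h).1
      · intro ω ω' _ _ h
        simp only [bv, Prod.mk.injEq] at h ⊢
        obtain ⟨a, b, c⟩ := h
        rw [a, b, c]
        simp
      · intro ω ω' _ _ h
        simp only [bv, Prod.mk.injEq] at h ⊢
        tauto
    linarith
  refine ⟨w, hw, ⟨hF.hM, hp, h1, hF.hv, ?_, hF.hτ⟩, ?_, ?_, ?_⟩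
  · intro ω ω' a b h
    refine hF.hu ω ω' a b ?_
    simp only [Prod.mk.injEq] at h ⊢
    tauto
  · unfold Kf
    linarith
  · have : dbl p (av (2 ^ J) (fun ω => (cap J (lev J N (w ω)) (v ω), w ω, Z ω)) v u τ) =
        dbl p (fun ω => (av (2 ^ J) Z v u τ ω, w ω, cap J (lev J N (w ω)) (v ω))) := by
      refine Pool.Agent.H91.KTH.dbl_congr p fun x y => ?_
      simp only [av, Prod.mk.injEq]
      tauto
    unfold Yf
    rw [this]
    exact hB
  · -- the entropy of the point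
    set X : Ω → Fin d → ℤ := fun ω => rd (pos (2 ^ J) (u ω) (v ω) (τ ω)) with hX
    set D : Ω → Fin d → ℤ := fun ω => cap J (lev J N (w ω)) (v ω) with hD
    have c1 := CH_chain hp X τ Z
    have c1' : CH p X (fun ω => (τ ω, Z ω)) = Sf (2 ^ J) p Z v u τ := by
      refine CH_congr hp ?_ ?_ ?_ ?_ <;>
      · intro ω ω' _ _ h
        simp only [Prod.mk.injEq] at h ⊢
        tauto
    have c2 := CH_chain hp X τ (fun ω => (D ω, w ω, Z ω))
    have c2' : CH p X (fun ω => (τ ω, (D ω, w ω, Z ω))) =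
        Sf (2 ^ J) p (fun ω => (D ω, w ω, Z ω)) v u τ := by
      refine CH_congr hp ?_ ?_ ?_ ?_ <;>
      · intro ω ω' _ _ h
        simp only [Prod.mk.injEq] at h ⊢
        tauto
    have c3 : CH p (fun ω => (X ω, τ ω)) (fun ω => (w ω, Z ω)) ≤ CH p (fun ω => (X ω, τ ω)) Z :=
      CH_mono_cond hp (fun ω ω' _ _ h => (Prod.ext_iff.mp h).2)
    have c4 := CH_bayes hp (fun ω => (X ω, τ ω)) D (fun ω => (w ω, Z ω))
    have c5 : CH p D (fun ω => ((X ω, τ ω), (w ω, Z ω))) =
        CH p D (fun ω => (av (2 ^ J) Z v u τ ω, w ω)) := by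
      refine CH_congr hp ?_ ?_ ?_ ?_ <;>
      · intro ω ω' _ _ h
        simp only [av, Prod.mk.injEq] at h ⊢
        tauto
    unfold Sb
    rw [c5] at c4
    rw [c1'] at c1
    rw [c2'] at c2
    linarith

end Pool.LQ
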